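import Pool.Agent.MP_ca1109_lc.Dnf.B1
import Pool.Agent.MP_ca1109_lc.Dnf.B2

/-!
# Finner's inequality on the cube
-/

namespace Pool.Agent.MP_ca1109_lc.Xor

open Finset Pool.Agent.MP_ca1109_lc.Dnf

variable {n : ℕ} {ι : Type*}

/-- The average over the bit `v`. -/
noncomputable def av (v : Fin n) (f : Cube n → ℝ) (x : Cube n) : ℝ :=
  (f (Function.update x v true) + f (Function.update x v false)) / 2

/-- The average over the bits of the list. -/
noncomputable def avs : List (Fin n) → (Cube n → ℝ) → Cube n → ℝ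
  | [], f => f
  | v :: L, f => av v (avs L f)

/-- `f` does not depend on the bit `v`. -/
def Free (v : Fin n) (f : Cube n → ℝ) : Prop := ∀ x b, f (Function.update x v b) = f x

theorem av_flip (v : Fin n) (f : Cube n → ℝ) (x : Cube n) :
    av v f x = (f x + f (Function.update x v (!x v))) / 2 := by
  unfold av
  rcases hx : x v with _ | _
  · rw [show Function.update x v false = x by rw [← hx]; exact Function.update_eq_self v x, Bool.not_false]
    ring
  · rw [show Function.update x v true = x by rw [← hx]; exact Function.update_eq_self v x, Bool.not_true]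

theorem E_av (v : Fin n) (f : Cube n → ℝ) : E (av v f) = E f := by
  have hi : Function.Involutive fun x : Cube n => Function.update x v (!x v) := by
    intro x
    dsimp only
    rw [Function.update_idem, Function.update_self, Bool.not_not, Function.update_eq_self]
  have h1 : ∑ x, f (Function.update x v (!x v)) = ∑ x, f x := Equiv.sum_comp (hi.toPerm _) f
  unfold E
  congr 1
  rw [Finset.sum_congr rfl fun x _ => av_flip v f x, ← Finset.sum_div, Finset.sum_add_distrib, h1]
  ring

theorem free_av {v w : Fin n} {f : Cube n → ℝ} (h : w = v ∨ Free w f) : Free w (av v f) := by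
  intro x b
  unfold av
  by_cases hwv : w = v
  · subst hwv
    rw [Function.update_idem, Function.update_idem]
  · have hf : Free w f := by
      rcases h with h | h
      · exact absurd h hwv
      · exact h
    rw [Function.update_comm hwv, Function.update_comm hwv, hf, hf]

theorem free_avs {w : Fin n} {f : Cube n → ℝ} (L : List (Fin n)) (h : w ∈ L ∨ Free w f) :
    Free w (avs L f) := by
  induction L with
  | nil =>
    rcases h with h | h
    · simp at h
    · exact h
  | cons v L ih =>
    unfold avs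
    apply free_av
    rcases h with h | h
    · rcases List.mem_cons.1 h with h | h
      · exact Or.inl h
      · exact Or.inr (ih (Or.inl h))
    · exact Or.inr (ih (Or.inr h))

theorem free_all {f : Cube n → ℝ} (h : ∀ v, Free v f) (x y : Cube n) : f x = f y := by
  classical
  have key : ∀ S : Finset (Fin n), f (fun i => if i ∈ S then x i else y i) = f y := by
    intro S
    induction S using Finset.induction_on with
    | empty => simp
    | insert a S ha ih =>
      have h1 : (fun i => if i ∈ insert a S then x i else y i) =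
          Function.update (fun i => if i ∈ S then x i else y i) a (x a) := by
        funext i
        by_cases hi : i = a
        · subst hi
          rw [Function.update_self, if_pos (Finset.mem_insert_self _ _)]
        · rw [Function.update_of_ne hi]
          simp [hi]
      rw [h1, h a, ih]
  have := key Finset.univ
  simpa using this

theorem avs_univ (f : Cube n → ℝ) (x : Cube n) : avs (List.finRange n) f x = E f := by
  have h1 : ∀ L : List (Fin n), E (avs L f) = E f := by
    intro L
    induction L with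
    | nil => rfl
    | cons v L ih => unfold avs; rw [E_av, ih]
  have h2 : avs (List.finRange n) f = fun _ => avs (List.finRange n) f x := by
    funext y
    exact free_all (fun v => free_avs _ (Or.inl (List.mem_finRange v))) y x
  have h3 := h1 (List.finRange n)
  rw [h2, E_const] at h3
  exact h3

theorem amgm {r : ℕ} (hr : 0 < r) (P : Finset ι) (hP : P.card ≤ r) (z : ι → ℝ) (hz : ∀ j ∈ P, 0 ≤ z j) :
    ∏ j ∈ P, z j ^ ((r : ℝ)⁻¹) ≤ (∑ j ∈ P, z j) / r + (1 - P.card / r) := by
  have hr' : (0 : ℝ) < r := by exact_mod_cast hr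
  have h := Real.geom_mean_le_arith_mean_weighted (Finset.insertNone P)
    (fun o => o.elim (1 - (P.card : ℝ) / r) fun _ => (r : ℝ)⁻¹)
    (fun o => o.elim 1 z) ?_ ?_ ?_
  · rw [Finset.prod_insertNone, Finset.sum_insertNone] at h
    simp only [Option.elim, Real.one_rpow, one_mul, mul_one] at h
    refine h.trans (le_of_eq ?_)
    rw [Finset.sum_div, add_comm]
    congr 1
    exact Finset.sum_congr rfl fun j _ => by rw [div_eq_inv_mul]
  · intro o _
    rcases o with _ | j
    · simp only [Option.elim]
      rw [sub_nonneg, div_le_one hr']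
      exact_mod_cast hP
    · simp only [Option.elim]
      positivity
  · rw [Finset.sum_insertNone]
    simp only [Option.elim, Finset.sum_const, nsmul_eq_mul]
    field_simp
    ring
  · intro o ho
    rcases o with _ | j
    · simp only [Option.elim]
      norm_num
    · simp only [Option.elim]
      exact hz j (by simpa using ho)

theorem two {r : ℕ} (hr : 0 < r) (P : Finset ι) (hP : P.card ≤ r) (a b : ι → ℝ)
    (ha : ∀ j ∈ P, 0 ≤ a j) (hb : ∀ j ∈ P, 0 ≤ b j) :
    (∏ j ∈ P, a j + ∏ j ∈ P, b j) / 2 ≤ ∏ j ∈ P, ((a j ^ r + b j ^ r) / 2) ^ ((r : ℝ)⁻¹) := by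
  have hr' : (0 : ℝ) < r := by exact_mod_cast hr
  by_cases h0 : ∃ j ∈ P, a j ^ r + b j ^ r = 0
  · obtain ⟨j, hj, hs⟩ := h0
    have h1 : 0 ≤ a j ^ r := pow_nonneg (ha j hj) r
    have h2 : 0 ≤ b j ^ r := pow_nonneg (hb j hj) r
    have h3 : a j = 0 := pow_eq_zero_iff hr.ne' |>.1 (by linarith)
    have h4 : b j = 0 := pow_eq_zero_iff hr.ne' |>.1 (by linarith)
    rw [Finset.prod_eq_zero hj h3, Finset.prod_eq_zero hj h4]
    refine le_trans (by norm_num) (Finset.prod_nonneg fun i hi => ?_)
    have h5 := pow_nonneg (ha i hi) r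
    have h6 := pow_nonneg (hb i hi) r
    positivity
  · push Not at h0
    have hS : ∀ j ∈ P, 0 < (a j ^ r + b j ^ r) / 2 := by
      intro j hj
      have h5 := pow_nonneg (ha j hj) r
      have h6 := pow_nonneg (hb j hj) r
      have h7 := h0 j hj
      have : 0 < a j ^ r + b j ^ r := lt_of_le_of_ne (by positivity) (Ne.symm h7)
      linarith
    have key : ∀ c : ι → ℝ, (∀ j ∈ P, 0 ≤ c j) → ∏ j ∈ P, c j ≤
        (∏ j ∈ P, ((a j ^ r + b j ^ r) / 2) ^ ((r : ℝ)⁻¹)) *
          ((∑ j ∈ P, c j ^ r / ((a j ^ r + b j ^ r) / 2)) / r + (1 - P.card / r)) := by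
      intro c hc
      have h1 : ∏ j ∈ P, c j = (∏ j ∈ P, ((a j ^ r + b j ^ r) / 2) ^ ((r : ℝ)⁻¹)) *
          ∏ j ∈ P, (c j ^ r / ((a j ^ r + b j ^ r) / 2)) ^ ((r : ℝ)⁻¹) := by
        rw [← Finset.prod_mul_distrib]
        refine Finset.prod_congr rfl fun j hj => ?_
        rw [← Real.mul_rpow (hS j hj).le (div_nonneg (pow_nonneg (hc j hj) r) (hS j hj).le),
          mul_div_cancel₀ _ (hS j hj).ne', Real.pow_rpow_inv_natCast (hc j hj) hr.ne']
      rw [h1]
      refine mul_le_mul_of_nonneg_left ?_ (Finset.prod_nonneg fun j hj => ?_)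
      · exact amgm hr P hP _ fun j hj => div_nonneg (pow_nonneg (hc j hj) r) (hS j hj).le
      · have := hS j hj
        positivity
    have ha' := key a ha
    have hb' := key b hb
    set K := ∏ j ∈ P, ((a j ^ r + b j ^ r) / 2) ^ ((r : ℝ)⁻¹) with hK
    have hsum : ∑ j ∈ P, a j ^ r / ((a j ^ r + b j ^ r) / 2) + ∑ j ∈ P, b j ^ r / ((a j ^ r + b j ^ r) / 2) =
        2 * P.card := by
      rw [← Finset.sum_add_distrib]
      have : ∀ j ∈ P, a j ^ r / ((a j ^ r + b j ^ r) / 2) + b j ^ r / ((a j ^ r + b j ^ r) / 2) = 2 := by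
        intro j hj
        have h7 := h0 j hj
        field_simp
      rw [Finset.sum_congr rfl this]
      simp [mul_comm]
    have h8 : K * ((∑ j ∈ P, a j ^ r / ((a j ^ r + b j ^ r) / 2)) / r + (1 - P.card / r)) +
        K * ((∑ j ∈ P, b j ^ r / ((a j ^ r + b j ^ r) / 2)) / r + (1 - P.card / r)) = 2 * K := by
      have : (∑ j ∈ P, a j ^ r / ((a j ^ r + b j ^ r) / 2)) / r + (∑ j ∈ P, b j ^ r / ((a j ^ r + b j ^ r) / 2)) / r =
          2 * (P.card / r) := by
        rw [← add_div, hsum]
        ring
      linear_combination K * this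
    linarith

/-- **Finner's inequality** on the cube. -/
theorem finner (r : ℕ) (hr : 0 < r) (J : Finset ι) (A : ι → Finset (Fin n))
    (hread : ∀ v, (J.filter fun j => v ∈ A j).card ≤ r) (g : ι → Cube n → ℝ)
    (h0 : ∀ j ∈ J, ∀ x, 0 ≤ g j x) (hon : ∀ j ∈ J, On (A j) (g j)) :
    E (fun x => ∏ j ∈ J, g j x) ≤ ∏ j ∈ J, (E fun x => g j x ^ r) ^ ((r : ℝ)⁻¹) := by
  classical
  have hnn : ∀ (L : List (Fin n)) (f : Cube n → ℝ), (∀ x, 0 ≤ f x) → ∀ x, 0 ≤ avs L f x := by
    intro L f hf
    induction L with
    | nil => exact hf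
    | cons v L ih =>
      intro x
      unfold avs av
      have := ih (Function.update x v true)
      have := ih (Function.update x v false)
      positivity
  have key : ∀ (L : List (Fin n)) (x : Cube n), avs L (fun x => ∏ j ∈ J, g j x) x ≤
      ∏ j ∈ J, (avs L (fun x => g j x ^ r) x) ^ ((r : ℝ)⁻¹) := by
    intro L
    induction L with
    | nil =>
      intro x
      refine le_of_eq (Finset.prod_congr rfl fun j hj => ?_)
      exact (Real.pow_rpow_inv_natCast (h0 j hj x) hr.ne').symm
    | cons v L ih =>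
      intro x
      set G : ι → Cube n → ℝ := fun j y => (avs L (fun x => g j x ^ r) y) ^ ((r : ℝ)⁻¹) with hG
      have hG0 : ∀ j ∈ J, ∀ y, 0 ≤ G j y := fun j hj y =>
        Real.rpow_nonneg (hnn L _ (fun x => pow_nonneg (h0 j hj x) r) y) _
      have hGr : ∀ j ∈ J, ∀ y, G j y ^ r = avs L (fun x => g j x ^ r) y := fun j hj y =>
        Real.rpow_inv_natCast_pow (hnn L _ (fun x => pow_nonneg (h0 j hj x) r) y) hr.ne'
      have hfree : ∀ j ∈ J, v ∉ A j → Free v (avs L (fun x => g j x ^ r)) := by
        intro j hj hv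
        refine free_avs L (Or.inr fun x b => ?_)
        have : g j (Function.update x v b) = g j x := hon j hj _ _ fun i hi => by
          have : i ≠ v := fun h => hv (h ▸ hi)
          rw [Function.update_of_ne this]
        simp only [this]
      have h1 : avs (v :: L) (fun x => ∏ j ∈ J, g j x) x ≤
          (∏ j ∈ J, G j (Function.update x v true) + ∏ j ∈ J, G j (Function.update x v false)) / 2 := by
        show av v (avs L _) x ≤ _
        unfold av
        have e1 := ih (Function.update x v true)
        have e2 := ih (Function.update x v false)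
        linarith
      refine h1.trans ?_
      set P := J.filter fun j => v ∈ A j with hP
      set R := J.filter fun j => ¬ v ∈ A j with hR
      have hs : ∀ c : ι → ℝ, ∏ j ∈ J, c j = (∏ j ∈ P, c j) * ∏ j ∈ R, c j := fun c =>
        (Finset.prod_filter_mul_prod_filter_not J (fun j => v ∈ A j) c).symm
      have hRc : ∀ b, ∏ j ∈ R, G j (Function.update x v b) = ∏ j ∈ R, G j x := by
        intro b
        refine Finset.prod_congr rfl fun j hj => ?_
        rw [hR, Finset.mem_filter] at hj
        simp only [hG]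
        rw [hfree j hj.1 hj.2]
      rw [hs, hs, hs, hRc, hRc, ← add_mul, mul_div_right_comm]
      refine mul_le_mul ?_ (le_of_eq ?_) ?_ ?_
      · have hPJ : ∀ j ∈ P, j ∈ J := fun j hj => (Finset.mem_filter.1 hj).1
        refine (two hr P (hread v) _ _ (fun j hj => hG0 j (hPJ j hj) _)
          (fun j hj => hG0 j (hPJ j hj) _)).trans (le_of_eq ?_)
        refine Finset.prod_congr rfl fun j hj => ?_
        rw [hGr j (hPJ j hj), hGr j (hPJ j hj)]
        rfl
      · refine Finset.prod_congr rfl fun j hj => ?_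
        rw [hR, Finset.mem_filter] at hj
        have hf := hfree j hj.1 hj.2
        simp only [hG]
        congr 1
        show _ = av v (avs L _) x
        unfold av
        rw [hf, hf]
        ring
      · refine Finset.prod_nonneg fun j hj => ?_
        rw [hR, Finset.mem_filter] at hj
        exact hG0 j hj.1 _
      · refine Finset.prod_nonneg fun j hj => ?_
        rw [hP, Finset.mem_filter] at hj
        exact Real.rpow_nonneg (hnn (v :: L) _ (fun x => pow_nonneg (h0 j hj.1 x) r) x) _
  have h := key (List.finRange n) (fun _ => true)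
  rw [avs_univ] at h
  refine h.trans (le_of_eq (Finset.prod_congr rfl fun j _ => ?_))
  rw [avs_univ]

/-- Moments of the number of true terms. -/
theorem mgf (r : ℕ) (hr : 0 < r) (J : Finset ι) (T : ι → Term n)
    (hread : ∀ v, (J.filter fun j => v ∈ (T j).S).card ≤ r) (θ : ℝ) (hθ : 0 ≤ θ) :
    E (fun x => ∏ j ∈ J, (1 + θ * (T j).f x)) ≤
      Real.exp (((1 + θ) ^ r - 1) / r * ∑ j ∈ J, (1 / 2) ^ (T j).S.card) := by
  have hr' : (0 : ℝ) < r := by exact_mod_cast hr
  have hf : ∀ (j : ι) (x : Cube n), (T j).f x = 0 ∨ (T j).f x = 1 := by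
    intro j x
    unfold Term.f
    by_cases h : (T j).Sat x
    · exact Or.inr (one_true h)
    · exact Or.inl (one_false h)
  have h1 := finner r hr J (fun j => (T j).S) hread (fun j x => 1 + θ * (T j).f x)
    (fun j _ x => by rcases hf j x with h | h <;> rw [h] <;> positivity)
    (fun j _ x y h => by simp only [on_term (T j) x y h])
  refine h1.trans ?_
  rw [Finset.mul_sum, Real.exp_sum]
  refine Finset.prod_le_prod (fun j _ => ?_) fun j _ => ?_
  · refine Real.rpow_nonneg (E_nonneg fun x => ?_) _
    rcases hf j x with h | h <;> rw [h] <;> positivity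
  · have h2 : E (fun x => (1 + θ * (T j).f x) ^ r) = 1 + ((1 + θ) ^ r - 1) * (1 / 2) ^ (T j).S.card := by
      have : (fun x => (1 + θ * (T j).f x) ^ r) = fun x => 1 + ((1 + θ) ^ r - 1) * (T j).f x := by
        funext x
        rcases hf j x with h | h <;> rw [h]
        · simp
        · ring
      rw [this, E_add, E_const, E_smul, E_term]
    rw [h2]
    have h3 : 0 ≤ ((1 + θ) ^ r - 1) * (1 / 2 : ℝ) ^ (T j).S.card := by
      have : (1 : ℝ) ≤ (1 + θ) ^ r := one_le_pow₀ (by linarith)
      have h4 : 0 ≤ (1 + θ) ^ r - 1 := by linarith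
      positivity
    have h5 : 1 + ((1 + θ) ^ r - 1) * (1 / 2 : ℝ) ^ (T j).S.card ≤
        Real.exp (((1 + θ) ^ r - 1) * (1 / 2) ^ (T j).S.card) := by
      have := Real.add_one_le_exp (((1 + θ) ^ r - 1) * (1 / 2 : ℝ) ^ (T j).S.card)
      linarith
    calc (1 + ((1 + θ) ^ r - 1) * (1 / 2 : ℝ) ^ (T j).S.card) ^ ((r : ℝ)⁻¹)
        ≤ Real.exp (((1 + θ) ^ r - 1) * (1 / 2) ^ (T j).S.card) ^ ((r : ℝ)⁻¹) :=
          Real.rpow_le_rpow (by linarith) h5 (by positivity)
      _ = Real.exp (((1 + θ) ^ r - 1) / r * (1 / 2) ^ (T j).S.card) := by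
          rw [← Real.exp_mul]
          congr 1
          field_simp

/-- Finner's inequality for functions of disjoint classes of terms. -/
theorem finner_class {κ : Type*} [DecidableEq κ] (r : ℕ) (hr : 0 < r) (J : Finset ι) (T : ι → Term n)
    (hread : ∀ v, (J.filter fun j => v ∈ (T j).S).card ≤ r) (c : ι → κ) (K : Finset κ)
    (G : κ → Cube n → ℝ) (h0 : ∀ a ∈ K, ∀ x, 0 ≤ G a x)
    (hon : ∀ a ∈ K, On ((J.filter fun j => c j = a).biUnion fun j => (T j).S) (G a)) :
    E (fun x => ∏ a ∈ K, G a x) ≤ ∏ a ∈ K, (E fun x => G a x ^ r) ^ ((r : ℝ)⁻¹) := by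
  refine finner r hr K _ (fun v => le_trans ?_ (hread v)) G h0 hon
  refine (Finset.card_le_card ?_).trans (Finset.card_image_le (f := c))
  intro a ha
  rw [Finset.mem_filter, Finset.mem_biUnion] at ha
  obtain ⟨-, j, hj, hv⟩ := ha
  rw [Finset.mem_filter] at hj
  exact Finset.mem_image.2 ⟨j, Finset.mem_filter.2 ⟨hj.1, hv⟩, hj.2⟩

end Pool.Agent.MP_ca1109_lc.Xor
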